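import Pool.Agent.Lib.MP_305fdd_al.Su.AA.Pk
import Pool.Agent.Lib.MP_305fdd_al.Su.SM.Trk
import Pool.Agent.Lib.MP_305fdd_al.Su.L.NoAb

/-!
# MP_305fdd_al, surface groups, block AA (assembly of the algebraic side): Lemma X and the class `Sc`
-/

set_option autoImplicit false

namespace Pool.Agent.SuAA

open Matrix (SpecialLinearGroup)
open Pool.Agent.Lib.MP_305fdd_al Pool.Agent.MP_305fdd_al Pool.Agent.FrN Pool.Agent.FrAsm
  Pool.Agent.Su Pool.Agent.SuSM Pool.Agent.SuCO Pool.Agent.SuS Pool.Agent.SurfCnt Pool.Agent.SuX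

namespace Pk

variable {g : ℕ} {Λ Γ F : Type} [Group Λ] [Group Γ] [Field F] [Algebra (ZMod 2) F] {π : Λ →* Γ}
  {ρ : Γ →* SpecialLinearGroup (Fin 2) F}

/-- the data of Lemma X -/
theorem xs (h : Pk g π ρ) : XS g Γ F ρ where
  fg := h.fg
  frac := h.frac
  trF := h.trF
  pts := fun r => h.pts (ZMod 2) r
  s3 := fun ε _ h2 hc => by
    have := h.fgL
    obtain ⟨Φ⟩ := h.nbG
    have hg : 1 ≤ g := by have := h.two; omega
    refine (count3 hg Φ (ε.comp π) (fun γ => h2 _) (fun γ δ => hc _ _)).trans ?_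
    have hfin : Finite (Γ →* Q1) := by
      have := h.fg
      exact finite_hom Γ Q1
    refine Nat.card_le_card_of_injective (fun r : {r : Λ →* Q1 //
      ∀ γ, (r γ) ^ 3 = 1 ↔ (ε.comp π) γ = 1} => (⟨(h.exists_fac (ZMod 2) r.1).choose, ?_⟩ :
        {r : Γ →* Q1 // ∀ γ, (r γ) ^ 3 = 1 ↔ ε γ = 1})) ?_
    · intro γ
      obtain ⟨x, rfl⟩ := h.surj γ
      have h1 := DFunLike.congr_fun (h.exists_fac (ZMod 2) r.1).choose_spec x
      rw [MonoidHom.comp_apply] at h1
      rw [h1]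
      exact r.2 x
    · intro r r' hr
      have h1 := congrArg Subtype.val hr
      apply Subtype.ext
      rw [← (h.exists_fac (ZMod 2) r.1).choose_spec, ← (h.exists_fac (ZMod 2) r'.1).choose_spec]
      exact congrArg (fun f : Γ →* Q1 => f.comp π) h1
  dual := fun r hr h3 => by
    have := h.fgL
    obtain ⟨Φ⟩ := h.nbG
    have hg : 1 ≤ g := by have := h.two; omega
    have hr' : r.comp π ≠ 1 := by
      intro h0
      apply hr
      refine (MonoidHom.cancel_right h.surj).1 ?_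
      rw [h0, MonoidHom.one_comp]
    refine le_trans ?_ (countD hg Φ (r.comp π) hr' fun γ => h3 _)
    have hfin : Finite (Λ →* Q2) := finite_hom Λ Q2
    refine Nat.card_le_card_of_injective (fun s : DL r => (⟨s.1.comp π, fun a i j => s.2 (π a) i j⟩ :
      DL (r.comp π))) ?_
    intro s s' hs
    exact Subtype.ext ((MonoidHom.cancel_right h.surj).1 (congrArg Subtype.val hs))

/-- LEMMA X -/
theorem lx (h : Pk g π ρ) : LX ρ := LX_of_XS h.two h.xs

/-- the conjugates over domains are specialisations -/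
theorem cv (h : Pk g π ρ) : SuTk.Cv ρ := ⟨h.frac, fun R _ _ _ _ _ _ _ => h.pts R _⟩

/-- the transcendence degree over the trace field -/
theorem trKF (h : Pk g π ρ) :
    Algebra.trdeg (ZMod 2) (FrH.KK ρ) + 3 = Algebra.trdeg (ZMod 2) F := by
  have := h.fgL
  obtain ⟨a, _, b, _, hab⟩ := h.gn.good
  refine SuTk.trdeg_KK h.cv (π a) (π b) ?_
  rw [SuTk.det_comm_eq]
  have h1 : ρ (π a) * ρ (π b) * (ρ (π a))⁻¹ * (ρ (π b))⁻¹ = (ρ.comp π) (a * b * a⁻¹ * b⁻¹) := by
    simp only [map_mul, map_inv, MonoidHom.comp_apply]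
  rw [h1]
  exact hab

/-- the transcendence degree of the trace field -/
theorem trK (h : Pk g π ρ) :
    Algebra.trdeg (ZMod 2) (FrH.KK ρ) + 6 = ((6 * g : ℕ) : Cardinal) := by
  have h6 : (6 : Cardinal) = 3 + 3 := by norm_num
  rw [h6, ← add_assoc, h.trKF, h.trF]

/-- the data used by `Su/L` -/
theorem gd0 (h : Pk g π ρ) : SuL.Gd0 g π ρ where
  nb := h.nbG
  fac := h.fac
  triv := by
    obtain ⟨φ, hφ⟩ := h.pts (ZMod 2) (1 : Γ →* SpecialLinearGroup (Fin 2) (ZMod 2))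
    exact ⟨φ, hφ⟩

/-- THE CLASS `Sc` (with the theorem DIV as hypothesis) -/
theorem sc (h : Pk g π ρ) (hdiv : ∀ x, (ρ x).1.trace = 0 → x = 1) :
    Sc Γ (FrH.KK ρ) F (FrH.TT ρ) ρ where
  fg := h.fg
  inj := h.inj
  tr := h.tr
  fracK := FrH.frc_KK ρ
  fracF := h.frac
  finF := h.finF
  univ := h.wu
  div := hdiv
  fi := h.fi
  nab := h.nab
  lx := h.lx

/-- the class `ScG` (with the theorem DIV as hypothesis) -/
theorem scG (h : Pk g π ρ) (hdiv : ∀ x, (ρ x).1.trace = 0 → x = 1) :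
    ScG g Γ (FrH.KK ρ) F (FrH.TT ρ) ρ where
  toSc := h.sc hdiv
  two := h.two
  trF := h.trF
  trK := h.trK

end Pk

end Pool.Agent.SuAA
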