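import Pool.Agent.Lib.MP_305fdd_al.Su.AA.Lx

/-!
# MP_305fdd_al, surface groups, block AA (assembly of the algebraic side): nilpotence from the model

`Model g`: for some generic representation of the surface group of genus `g` a Cartier operator is
nilpotent on a nonzero ideal of the ring of the traces.  `nil_pk`: then this is true for every package.
-/

set_option autoImplicit false

namespace Pool.Agent.SuAA

open Matrix (SpecialLinearGroup)
open Pool.Agent.Lib.MP_305fdd_al Pool.Agent.MP_305fdd_al Pool.Agent.FrN Pool.Agent.FrAsm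
  Pool.Agent.Su Pool.Agent.SuSM Pool.Agent.SuCO Pool.Agent.SuS Pool.Agent.SurfCnt Pool.Agent.SuL

/-- the output of the block M (model) for the surface group of genus `g` -/
def Model (g : ℕ) : Prop :=
  ∃ (K F : Type) (_ : Field K) (_ : Field F) (_ : Algebra (ZMod 2) K) (_ : Algebra (ZMod 2) F)
    (_ : Algebra K F) (T : SurfaceGroup g → K) (ρ : SurfaceGroup g →* SpecialLinearGroup (Fin 2) F),
    (∀ x, (ρ x).1.trace = algebraMap K F (T x)) ∧ Gn 2 ρ ∧ Frc (BB 2 T) ∧ NIL T

/-- the ring of the traces of a representation with the same image -/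
theorem BB_comp {Λ Γ K : Type} [Group Λ] [Group Γ] [Field K] [Algebra (ZMod 2) K] {π : Λ →* Γ}
    (hπ : Function.Surjective π) (T : Γ → K) : BB 2 (fun x => T (π x)) = BB 2 T := by
  unfold BB
  congr 1
  ext x
  constructor
  · rintro ⟨y, rfl⟩
    exact ⟨π y, rfl⟩
  · rintro ⟨y, rfl⟩
    obtain ⟨z, rfl⟩ := hπ y
    exact ⟨z, rfl⟩

/-- nilpotence depends only on the ring of the traces -/
theorem nil_congr {G G' K : Type} [Group G] [Group G'] [Field K] [Algebra (ZMod 2) K] {T : G → K}
    {T' : G' → K} (h : BB 2 T = BB 2 T') (hn : NIL T) : NIL T' := by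
  unfold NIL at hn ⊢
  rw [← h]
  exact hn

/-- NILPOTENCE for every group with the same finite quotients as the surface group -/
theorem Pk.nil {g : ℕ} {Λ Γ F : Type} [Group Λ] [Group Γ] [Field F] [Algebra (ZMod 2) F] {π : Λ →* Γ}
    {ρ : Γ →* SpecialLinearGroup (Fin 2) F} (h : Pk g π ρ) (hm : Model g) : NIL (FrH.TT ρ) := by
  have := h.fgL
  have := SuPts.fg_surf g
  obtain ⟨Φ⟩ := h.nb
  obtain ⟨K', F', _, _, _, _, _, T', ρ', hT', hg', hf', hn'⟩ := hm
  have hf : Frc (BB 2 fun x => FrH.TT ρ (π x)) := by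
    rw [BB_comp h.surj]
    exact FrH.frc_KK ρ
  exact nil_congr (BB_comp h.surj _)
    (nil_tr Φ h.gn hg' (T := fun x => FrH.TT ρ (π x)) (fun _ => rfl) hT' hf hf' hn')

/-- the image of a generic representation: the package with `Λ` given by its generic
representation -/
theorem pk_of_gn {g : ℕ} (hg : 2 ≤ g) {Λ F : Type} [Group Λ] [Field F] [Algebra (ZMod 2) F]
    (hfg : Group.FG Λ) (hnb : Nonempty (NatBij Λ (SurfaceGroup g)))
    {ρ : Λ →* SpecialLinearGroup (Fin 2) F} (h : Gn 2 ρ) (hf : Frc (OO 2 ρ)) :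
    Pk g ρ.rangeRestrict ρ.range.subtype := by
  have h3 : ρ.range.subtype.comp ρ.rangeRestrict = ρ := MonoidHom.subtype_comp_rangeRestrict ρ
  have h4 := OO_comp ρ.rangeRestrict_surjective ρ.range.subtype
  rw [h3] at h4
  refine ⟨hg, hnb, hfg, ρ.rangeRestrict_surjective, Subtype.val_injective, ?_, ?_⟩
  · rw [h3]
    exact h
  · rw [← h4]
    exact hf

end Pool.Agent.SuAA
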