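import Pool.Agent.Lib.MP_305fdd_al.Su.Min.H
import Pool.Agent.Lib.MP_305fdd_al.Su.SM.Pack
import Pool.Agent.Lib.MP_305fdd_al.Su.CO.Fin
import Pool.Agent.Lib.MP_305fdd_al.Su.L.First

/-!
# MP_305fdd_al, surface groups, block AA (assembly of the algebraic side): transfer of nilpotence

`nil_tr`: if `Λ` and `Δ` have the same finite quotients and a Cartier operator is nilpotent on a nonzero
ideal of the ring of the traces of the generic representation of `Δ`, then the same holds for `Λ`.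
-/

set_option autoImplicit false

namespace Pool.Agent.SuAA

open Matrix (SpecialLinearGroup)
open Pool.Agent.Lib.MP_305fdd_al Pool.Agent.FrN Pool.Agent.F2Ch Pool.Agent.F2RF Pool.Agent.SuMin
  Pool.Agent.SuSM Pool.Agent.SuCO Pool.Agent.SuL Pool.Agent.SuS

section

variable {K : Type} [Field K] [Algebra (ZMod 2) K]

theorem iter_zero {Φ : K → K} (h : IsPinv 2 Φ) (e : ℕ) : Φ^[e] 0 = 0 := by
  have h0 : Φ 0 = 0 := by
    have h1 := h.add 0 0
    rw [add_zero] at h1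
    exact left_eq_add.1 h1
  induction e with
  | zero => rfl
  | succ e ih => rw [Function.iterate_succ_apply', ih, h0]

theorem iter_add {Φ : K → K} (h : IsPinv 2 Φ) (e : ℕ) (x y : K) :
    Φ^[e] (x + y) = Φ^[e] x + Φ^[e] y := by
  induction e with
  | zero => rfl
  | succ e ih => rw [Function.iterate_succ_apply', ih, h.add, Function.iterate_succ_apply',
      Function.iterate_succ_apply']

theorem iter_le {Φ : K → K} (h : IsPinv 2 Φ) {e f : ℕ} (hef : e ≤ f) {x : K} (hx : Φ^[e] x = 0) :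
    Φ^[f] x = 0 := by
  obtain ⟨d, rfl⟩ := Nat.exists_eq_add_of_le hef
  rw [add_comm, Function.iterate_add_apply, hx, iter_zero h]

/-- the largest submodule on which `Φ` is nilpotent -/
def nilM (B : Subalgebra (ZMod 2) K) {Φ : K → K} (h : IsPinv 2 Φ) : Submodule B K where
  carrier := {m | ∀ b ∈ B, ∃ e : ℕ, Φ^[e] (b * m) = 0}
  zero_mem' := fun b _ => ⟨0, by rw [mul_zero, iter_zero h]⟩
  add_mem' := by
    intro x y hx hy b hb
    obtain ⟨e, he⟩ := hx b hb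
    obtain ⟨f, hf⟩ := hy b hb
    refine ⟨max e f, ?_⟩
    rw [mul_add, iter_add h, iter_le h (le_max_left e f) he, iter_le h (le_max_right e f) hf,
      add_zero]
  smul_mem' := by
    intro c x hx b hb
    obtain ⟨e, he⟩ := hx (b * c) (mul_mem hb c.2)
    refine ⟨e, ?_⟩
    change Φ^[e] (b * (c.1 * x)) = 0
    rw [← mul_assoc]
    exact he

theorem mem_nilM {B : Subalgebra (ZMod 2) K} {Φ : K → K} (h : IsPinv 2 Φ) {m : K} :
    m ∈ nilM B h ↔ ∀ b ∈ B, ∃ e : ℕ, Φ^[e] (b * m) = 0 := Iff.rfl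

theorem nilM_stb (B : Subalgebra (ZMod 2) K) {Φ : K → K} (h : IsPinv 2 Φ) : Stb Φ (nilM B h) := by
  intro m hm b hb
  obtain ⟨e, he⟩ := hm (b ^ 2) (pow_mem hb 2)
  refine ⟨e, ?_⟩
  rw [← h.pow_mul, ← Function.iterate_succ_apply, Function.iterate_succ_apply', he]
  have := iter_zero h 1
  exact this

theorem nilM_nil (B : Subalgebra (ZMod 2) K) {Φ : K → K} (h : IsPinv 2 Φ) :
    ∀ m ∈ nilM B h, ∃ e : ℕ, Φ^[e] m = 0 := by
  intro m hm
  obtain ⟨e, he⟩ := hm 1 (one_mem B)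
  rw [one_mul] at he
  exact ⟨e, he⟩

end

section

variable {Λ Δ K K' F F' : Type} [Group Λ] [Group Δ] [Field K] [Field K']
  [Field F] [Field F'] [Algebra (ZMod 2) K] [Algebra (ZMod 2) K'] [Algebra (ZMod 2) F]
  [Algebra (ZMod 2) F'] [Algebra K F] [Algebra K' F'] {T : Λ → K} {T' : Δ → K'}
  {ρ : Λ →* SpecialLinearGroup (Fin 2) F} {ρ' : Δ →* SpecialLinearGroup (Fin 2) F'}

theorem BBfg [Group.FG Λ] (hT : ∀ g, (ρ g).1.trace = algebraMap K F (T g)) : (BB 2 T).FG :=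
  TrD.BB_fg (ρ := ρ) hT inferInstance

/-- the completions of the rings of the traces of the generic representations are the same -/
theorem sameC_gn [Group.FG Λ] [Group.FG Δ] (Φ : NatBij Λ Δ) (h : Gn 2 ρ) (h' : Gn 2 ρ')
    (hT : ∀ g, (ρ g).1.trace = algebraMap K F (T g))
    (hT' : ∀ g, (ρ' g).1.trace = algebraMap K' F' (T' g)) (hf : Frc (BB 2 T))
    (hf' : Frc (BB 2 T')) : SameC (BB 2 T) (BB 2 T') :=
  sameC (h.tr hT hf) (h'.tr hT' hf') (h.tp h' Φ) (h'.tp h Φ.symm)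

/-- TRANSFER OF NILPOTENCE -/
theorem nil_tr [Group.FG Λ] [Group.FG Δ] (Φ : NatBij Λ Δ) (h : Gn 2 ρ) (h' : Gn 2 ρ')
    (hT : ∀ g, (ρ g).1.trace = algebraMap K F (T g))
    (hT' : ∀ g, (ρ' g).1.trace = algebraMap K' F' (T' g)) (hf : Frc (BB 2 T))
    (hf' : Frc (BB 2 T')) (hn : NIL T') : NIL T := by
  have hc' : CharP K' 2 := charP_of_injective_algebraMap (algebraMap (ZMod 2) K').injective 2
  have hc : CharP K 2 := charP_of_injective_algebraMap (algebraMap (ZMod 2) K).injective 2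
  obtain ⟨Φ', hΦ', c, hcB, hc0, hcn⟩ := hn
  obtain ⟨d, t, π, hM⟩ := exists_MB (BBfg hT) hf
  have hL : LogTy 2 (π j0) := ⟨d, t, π, 1, hM, one_ne_zero, fun f => by rw [inv_one, one_mul, one_mul]⟩
  have hne : nilM (BB 2 T') (lt_pinv hΦ') ≠ ⊥ := by
    intro h0
    have h1 : c ∈ nilM (BB 2 T') (lt_pinv hΦ') := fun b hb => by
      obtain ⟨e, he⟩ := hcn b hb
      exact ⟨e, by rw [mul_comm]; exact he⟩
    rw [h0, Submodule.mem_bot] at h1
    exact hc0 h1
  obtain ⟨M, hM1, _, hM3⟩ := nil_om (BBfg hT) hf (BBfg hT') hf' hL hΦ' (lt_pinv hL) (lt_pinv hΦ')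
    (sameC_gn Φ h h' hT hT' hf hf') ⟨_, hne, nilM_stb _ _, nilM_nil _ _⟩
  obtain ⟨m, hm, hm0⟩ := (Submodule.ne_bot_iff M).1 hM1.ne
  obtain ⟨a, ha, b, hb, hb0, hab⟩ := hf m
  refine ⟨π j0, hL, a, ha, ?_, ?_⟩
  · rw [← hab]
    exact mul_ne_zero hm0 hb0
  · intro β hβ
    obtain ⟨e, he⟩ := hM3 (β * b * m) (M.smul_mem (⟨β * b, mul_mem hβ hb⟩ : BB 2 T) hm)
    refine ⟨e, ?_⟩
    rw [← hab]
    have h1 : m * b * β = β * b * m := by ring
    rw [h1]
    exact he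

end

end Pool.Agent.SuAA
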