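import Pool.Agent.Lib.MP_305fdd_al.Su.AA.Nil
import Pool.Agent.Lib.MP_305fdd_al.Su.SM.Trd
import Pool.Agent.Lib.MP_305fdd_al.Su.Pts.Pack
import Pool.Agent.Lib.MP_305fdd_al.Su.FI.Main
import Pool.Agent.Lib.MP_305fdd_al.Su.X.Cnt
import Pool.Agent.Lib.MP_305fdd_al.Su.S.Defs
import Pool.Agent.Lib.MP_305fdd_al.Su.Eq
import Pool.Agent.Lib.MP_305fdd_al.Fr.N.H.HB

/-!
# MP_305fdd_al, surface groups, block AA (assembly of the algebraic side): the package

`Pk g π ρ`: `Λ` has the same finite quotients as the closed surface group of genus `g ≥ 2`, `π : Λ → Γ` is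
surjective, `ρ` is a faithful representation of `Γ` and `ρ ∘ π` is the generic representation of `Λ`.

`exists_pk`: such a package exists for every `Λ`.
-/

set_option autoImplicit false

namespace Pool.Agent.SuAA

open Matrix (SpecialLinearGroup)
open Pool.Agent.Lib.MP_305fdd_al Pool.Agent.MP_305fdd_al Pool.Agent.FrN Pool.Agent.FrAsm
  Pool.Agent.Su Pool.Agent.SuSM Pool.Agent.SuCO Pool.Agent.SuS Pool.Agent.SurfCnt

/-- transport of the target of a natural family of bijections along an isomorphism -/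
def nbMap {G H H' : Type} [Group G] [Group H] [Group H'] (Φ : NatBij G H) (e : H ≃* H') :
    NatBij G H' where
  toFun Q _ _ θ := (Φ.toFun Q θ).comp e.symm.toMonoidHom
  invFun Q _ _ θ := Φ.invFun Q (θ.comp e.toMonoidHom)
  left_inv Q _ _ θ := by
    have h1 : ((Φ.toFun Q θ).comp e.symm.toMonoidHom).comp e.toMonoidHom = Φ.toFun Q θ := by
      ext x
      simp
    rw [h1, Φ.left_inv]
  right_inv Q _ _ θ := by
    rw [Φ.right_inv]
    ext x
    simp
  nat f θ := by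
    rw [Φ.nat, MonoidHom.comp_assoc]

theorem nb_surfG {Λ : Type} [Group Λ] {g : ℕ} (h : Nonempty (NatBij Λ (SurfaceGroup g))) :
    Nonempty (NatBij Λ (SurfG g)) := by
  obtain ⟨Φ⟩ := h
  obtain ⟨e⟩ := nonempty_surfG g
  exact ⟨nbMap Φ e⟩

section comp

variable {Λ Γ F : Type} [Group Λ] [Group Γ] [Field F] [Algebra (ZMod 2) F] {π : Λ →* Γ}

/-- the ring of the entries of a representation with the same image -/
theorem OO_comp (hπ : Function.Surjective π) (ρ : Γ →* SpecialLinearGroup (Fin 2) F) :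
    OO 2 (ρ.comp π) = OO 2 ρ := by
  unfold OO
  congr 1
  ext x
  constructor
  · rintro ⟨y, i, j, rfl⟩
    exact ⟨π y, i, j, rfl⟩
  · rintro ⟨y, i, j, rfl⟩
    obtain ⟨z, rfl⟩ := hπ y
    exact ⟨z, i, j, rfl⟩

/-- specialisations of the quotient are specialisations -/
theorem sp_of_comp (hπ : Function.Surjective π) (ρ : Γ →* SpecialLinearGroup (Fin 2) F) {R : Type}
    [CommRing R] [Algebra (ZMod 2) R] (r : Γ →* SpecialLinearGroup (Fin 2) R)
    (h : Sp 2 (ρ.comp π) (r.comp π)) : Sp 2 ρ r := by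
  obtain ⟨φ, hφ⟩ := h
  refine ⟨φ.comp (Subalgebra.equivOfEq _ _ (OO_comp hπ ρ).symm).toAlgHom, fun y i j => ?_⟩
  obtain ⟨z, rfl⟩ := hπ y
  exact hφ z i j

end comp

/-- THE PACKAGE -/
structure Pk (g : ℕ) {Λ Γ F : Type} [Group Λ] [Group Γ] [Field F] [Algebra (ZMod 2) F]
    (π : Λ →* Γ) (ρ : Γ →* SpecialLinearGroup (Fin 2) F) : Prop where
  two : 2 ≤ g
  nb : Nonempty (NatBij Λ (SurfaceGroup g))
  fgL : Group.FG Λ
  surj : Function.Surjective π
  inj : Function.Injective ρ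
  gn : Gn 2 (ρ.comp π)
  frac : Frc (OO 2 ρ)

/-- EXISTENCE of the package -/
theorem exists_pk {g : ℕ} (hg : 2 ≤ g) {Λ : Type} [Group Λ] (hfg : Group.FG Λ)
    (h : Nonempty (NatBij Λ (SurfaceGroup g))) :
    ∃ (Γ F : Type) (_ : Group Γ) (_ : Field F) (_ : Algebra (ZMod 2) F) (π : Λ →* Γ)
      (ρ : Γ →* SpecialLinearGroup (Fin 2) F), Pk g π ρ := by
  obtain ⟨Φ⟩ := h
  obtain ⟨F, _, _, ρ₀, h1, h2⟩ := exists_gn (zz_prime Φ hg)
  have h3 : ρ₀.range.subtype.comp ρ₀.rangeRestrict = ρ₀ := MonoidHom.subtype_comp_rangeRestrict ρ₀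
  have h4 := OO_comp ρ₀.rangeRestrict_surjective ρ₀.range.subtype
  rw [h3] at h4
  refine ⟨ρ₀.range, F, inferInstance, inferInstance, inferInstance, ρ₀.rangeRestrict,
    ρ₀.range.subtype, hg, ⟨Φ⟩, hfg, ρ₀.rangeRestrict_surjective, Subtype.val_injective, ?_, ?_⟩
  · rw [h3]
    exact h1
  · rw [← h4]
    exact h2

namespace Pk

variable {g : ℕ} {Λ Γ F : Type} [Group Λ] [Group Γ] [Field F] [Algebra (ZMod 2) F] {π : Λ →* Γ}
  {ρ : Γ →* SpecialLinearGroup (Fin 2) F}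

theorem fg (h : Pk g π ρ) : Group.FG Γ := by
  have := h.fgL
  exact Group.fg_of_surjective h.surj

theorem nbG (h : Pk g π ρ) : Nonempty (NatBij Λ (SurfG g)) := nb_surfG h.nb

theorem frac' (h : Pk g π ρ) : Frc (OO 2 (ρ.comp π)) := by
  rw [OO_comp h.surj]
  exact h.frac

/-- the universal property for reduced rings -/
theorem sp (h : Pk g π ρ) (R : Type) [CommRing R] [IsReduced R] [Algebra (ZMod 2) R]
    (r : Γ →* SpecialLinearGroup (Fin 2) R) : Sp 2 ρ r := by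
  have := h.fgL
  obtain ⟨Φ⟩ := h.nb
  exact sp_of_comp h.surj ρ r (SuPts.Gn_sp_red h.two Φ h.gn R (r.comp π))

/-- the same, written out -/
theorem pts (h : Pk g π ρ) (R : Type) [CommRing R] [IsReduced R] [Algebra (ZMod 2) R]
    (r : Γ →* SpecialLinearGroup (Fin 2) R) :
    ∃ φ : OO 2 ρ →ₐ[ZMod 2] R, ∀ x i j, φ ⟨(ρ x).1 i j, mem_OO ρ x i j⟩ = (r x).1 i j :=
  h.sp R r

theorem wu (h : Pk g π ρ) : WU ρ := fun R _ _ _ r _ => h.pts R r

/-- the kernel of `π` is trivial in all representations over reduced rings -/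
theorem ker_le (h : Pk g π ρ) (R : Type) [CommRing R] [IsReduced R] [Algebra (ZMod 2) R]
    (r : Λ →* SpecialLinearGroup (Fin 2) R) : π.ker ≤ r.ker := by
  have := h.fgL
  obtain ⟨Φ⟩ := h.nb
  refine le_trans ?_ (SuPts.Gn_ker_le h.two Φ h.gn R r)
  intro x hx
  rw [MonoidHom.mem_ker] at hx ⊢
  rw [MonoidHom.comp_apply, hx, map_one]

/-- all representations of `Λ` over reduced rings factor through `Γ` -/
theorem exists_fac (h : Pk g π ρ) (R : Type) [CommRing R] [IsReduced R] [Algebra (ZMod 2) R]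
    (r : Λ →* SpecialLinearGroup (Fin 2) R) :
    ∃ r' : Γ →* SpecialLinearGroup (Fin 2) R, r'.comp π = r :=
  ⟨MonoidHom.liftOfSurjective π h.surj ⟨r, h.ker_le R r⟩, MonoidHom.liftOfRightInverse_comp _ _ _ _⟩

theorem fac (h : Pk g π ρ) : SuFI.Fac π := ⟨h.surj, fun κ _ _ _ r => h.exists_fac κ r⟩

theorem kerSL (h : Pk g π ρ) : SuPts.KerSL π := fun k _ _ _ r => h.ker_le k r

theorem trF (h : Pk g π ρ) : Algebra.trdeg (ZMod 2) F + 3 = ((6 * g : ℕ) : Cardinal) := by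
  have := h.fgL
  obtain ⟨Φ⟩ := h.nb
  rw [trdeg_eq Φ h.two h.gn h.frac']
  have h2 := h.two
  have h3 : 6 * g - 3 + 3 = 6 * g := by omega
  rw [← h3]
  push_cast
  rfl

theorem finF (h : Pk g π ρ) : Algebra.trdeg (ZMod 2) F < Cardinal.aleph0 := by
  have := h.fgL
  obtain ⟨Φ⟩ := h.nb
  rw [trdeg_eq Φ h.two h.gn h.frac']
  exact Cardinal.natCast_lt_aleph0

/-- the group is not commutative -/
theorem nab (h : Pk g π ρ) : ¬ Ab Γ := by
  have := h.fgL
  have h2 : CharP F 2 := charP_of_injective_algebraMap (algebraMap (ZMod 2) F).injective 2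
  intro hab
  obtain ⟨a, _, b, _, h1⟩ := h.gn.good
  apply h1
  have h3 : π (a * b * a⁻¹ * b⁻¹) = 1 := by
    rw [map_mul, map_mul, map_mul, map_inv, map_inv, hab (π a) (π b)]
    group
  rw [MonoidHom.comp_apply, h3, map_one]
  change (1 : Matrix (Fin 2) (Fin 2) F).trace = 0
  rw [Matrix.trace_one, Fintype.card_fin]
  exact_mod_cast CharP.cast_eq_zero F 2

/-- NO FREE DECOMPOSITION -/
theorem fi (h : Pk g π ρ) : FI Γ := by
  have := h.fg
  obtain ⟨Φ⟩ := h.nbG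
  obtain ⟨φ, hφ⟩ := h.pts (ZMod 2) (1 : Γ →* SpecialLinearGroup (Fin 2) (ZMod 2))
  exact SuFI.fi_of Φ h.fac h.inj φ hφ

/-- the trace field -/
theorem tr (_ : Pk g π ρ) : TrD (FrH.TT ρ) ρ := fun _ => rfl

end Pk

end Pool.Agent.SuAA
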