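import Pool.Agent.Lib.MP_305fdd_al.Su.AA.Tree
import Pool.Agent.Lib.MP_305fdd_al.Su.Hon.Main
import Pool.Agent.Lib.MP_305fdd_al.Su.Fo.Main
import Pool.Agent.Lib.MP_305fdd_al.Su.AE.Pk
import Pool.Agent.Lib.MP_305fdd_al.Su.S.NSG
import Pool.Agent.Lib.MP_305fdd_al.Su.CM.Use

/-!
# MP_305fdd_al, surface groups, block AA: the splitting (T1)

`Pk.t1`: a group `Γ` of the package acts on a tree with one orbit of edges, malnormal infinite cyclic edge
groups and finitely generated non-abelian vertex groups.  The model is a hypothesis.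
-/

set_option autoImplicit false

namespace Pool.Agent.SuAA

open Matrix (SpecialLinearGroup)
open Pool.Agent.Lib.MP_305fdd_al Pool.Agent.MP_305fdd_al Pool.Agent.FrN Pool.Agent.FrAsm
  Pool.Agent.FrS

namespace Pk

variable {g : ℕ} {Λ Γ F : Type} [Group Λ] [Group Γ] [Field F] [Algebra (ZMod 2) F] {π : Λ →* Γ}
  {ρ : Γ →* SpecialLinearGroup (Fin 2) F}

/-- only the identity has trace zero -/
theorem div (h : Pk g π ρ) (x : Γ) (hx : (ρ x).1.trace = 0) : x = 1 := SuCM.pk_div h x hx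

/-- the class `Sc` -/
theorem sc' (h : Pk g π ρ) : SuS.Sc Γ (FrH.KK ρ) F (FrH.TT ρ) ρ := h.sc h.div

/-- the class `ScG` -/
theorem scG' (h : Pk g π ρ) : SuS.ScG g Γ (FrH.KK ρ) F (FrH.TT ρ) ρ := h.scG h.div

/-- torsion free -/
theorem tf' (h : Pk g π ρ) (x : Γ) (n : ℕ) (hn : 0 < n) (hx : x ^ n = 1) : x = 1 :=
  h.tf h.div x n hn.ne' hx

/-- no semi-good valuations for minimal splittings -/
theorem nsg (h : Pk g π ρ) : SuL.NSG (FrH.TT ρ) ρ := fun _ hS _ hy => SuS.nsg h.sc' hS hy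

theorem cup (h : Pk g π ρ) : SuAE.Cup Γ := SuAE.cup_of_dep (SuCup.cup_pk h)

/-- (T1) THE SPLITTING -/
theorem t1 (h : Pk g π ρ) (hm : Model g) :
    ∃ (V : Type) (_ : MulAction Γ V) (X : SimpleGraph V) (u v : V), SuT.Spl Γ X ∧ X.Adj u v ∧
      ∀ x y, X.Adj x y → ∃ g : Γ, (g • u = x ∧ g • v = y) ∨ (g • u = y ∧ g • v = x) := by
  obtain ⟨S, _, hS, e, z, hz⟩ := SuFo.exists_sat_cyc h.sc' h.gd0 h.cup h.nsg (h.nil hm)
  exact SuH.hon h.inj h.div h.lx h.tf' hS e ⟨z, hz⟩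

end Pk

end Pool.Agent.SuAA
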