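import Pool.Agent.Lib.MP_305fdd_al.Su.AA.Mod
import Pool.Agent.Lib.MP_305fdd_al.Su.StmTree

/-!
# MP_305fdd_al, surface groups, block AA: the hypotheses of the blocks on trees

`Pk.fiT` : `SuT.FI Γ`; `Pk.nsc` : `SuT.Nsc ρ`; `Pk.tf` : `Γ` is torsion free (with DIV as hypothesis).
-/

set_option autoImplicit false

namespace Pool.Agent.SuAA

open Matrix (SpecialLinearGroup)
open Pool.Agent.Lib.MP_305fdd_al Pool.Agent.MP_305fdd_al Pool.Agent.FrN Pool.Agent.FrAsm
  Pool.Agent.FrS

section glue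

variable {Γ : Type} [Group Γ]

open Classical in
/-- extension of a homomorphism by `1` -/
noncomputable def extOne {Q : Type} [Group Q] (A : Subgroup Γ) (a : A →* Q) (x : Γ) : Q :=
  if h : x ∈ A then a ⟨x, h⟩ else 1

theorem extOne_apply {Q : Type} [Group Q] {A : Subgroup Γ} (a : A →* Q) (x : A) :
    extOne A a x = a x := by
  unfold extOne
  rw [dif_pos x.2]

theorem extOne_mul {Q : Type} [Group Q] {A : Subgroup Γ} (a : A →* Q) : MulOn A (extOne A a) := by
  intro x hx y hy
  have h1 := extOne_apply a ⟨x, hx⟩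
  have h2 := extOne_apply a ⟨y, hy⟩
  have h3 := extOne_apply a (⟨x, hx⟩ * ⟨y, hy⟩ : A)
  rw [map_mul] at h3
  rw [← h1, ← h2] at h3
  exact h3

theorem MulOn.one {Q : Type} [Group Q] {A : Subgroup Γ} {r : Γ → Q} (h : MulOn A r) : r 1 = 1 := by
  have h1 := h 1 A.one_mem 1 A.one_mem
  rw [one_mul] at h1
  exact left_eq_mul.1 h1

/-- the homomorphism given by a map which is multiplicative on the whole group -/
def toHom {Q : Type} [Group Q] {q : Γ → Q} (h : MulOn (⊤ : Subgroup Γ) q) : Γ →* Q where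
  toFun := q
  map_one' := MulOn.one h
  map_mul' x y := h x (Subgroup.mem_top x) y (Subgroup.mem_top y)

theorem fd_of_isAm {A C : Subgroup Γ} (h : IsAm ⊤ A C ⊥) : FD Γ A C where
  gen := h.sup.symm
  ext R _ _ a c := by
    obtain ⟨q, h1, h2, h3⟩ := h.ext R (extOne A a) (extOne C c) (extOne_mul a) (extOne_mul c) (by
      intro d hd
      obtain rfl := Subgroup.mem_bot.1 hd
      rw [MulOn.one (extOne_mul a), MulOn.one (extOne_mul c)])
    refine ⟨toHom h1, fun x => ?_, fun x => ?_⟩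
    · rw [← extOne_apply a x]
      exact h2 x x.2
    · rw [← extOne_apply c x]
      exact h3 x x.2

end glue

namespace Pk

variable {g : ℕ} {Λ Γ F : Type} [Group Λ] [Group Γ] [Field F] [Algebra (ZMod 2) F] {π : Λ →* Γ}
  {ρ : Γ →* SpecialLinearGroup (Fin 2) F}

/-- only the identity becomes scalar -/
theorem nsc (h : Pk g π ρ) : SuT.Nsc ρ := by
  have h2 : CharP F 2 := charP_of_injective_algebraMap (algebraMap (ZMod 2) F).injective 2
  rintro x ⟨c, hc⟩
  apply h.inj
  rw [map_one]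
  have hdet := (ρ x).2
  rw [hc, Matrix.det_smul, Matrix.det_one, Fintype.card_fin, mul_one] at hdet
  have h3 : (c + 1) ^ 2 = 0 := by
    rw [add_pow_char, hdet, one_pow]
    exact CharTwo.add_self_eq_zero 1
  have h4 : c = 1 := by
    have h5 : c + 1 = 0 := by
      rcases pow_eq_zero_iff (two_ne_zero) |>.1 h3 with h
      exact h
    rw [CharTwo.add_eq_zero] at h5
    exact h5
  apply Subtype.ext
  rw [hc, h4, one_smul]
  rfl

/-- the group is torsion free -/
theorem tf (h : Pk g π ρ) (hdiv : ∀ x, (ρ x).1.trace = 0 → x = 1) (x : Γ) (n : ℕ) (hn : n ≠ 0)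
    (hx : x ^ n = 1) : x = 1 := SuL.sc_tf (h.sc hdiv) h.gd0 x n hn hx

/-- FREELY INDECOMPOSABLE, in the form of the blocks on trees -/
theorem fiT (h : Pk g π ρ) : SuT.FI Γ := by
  classical
  refine ⟨?_, ?_⟩
  · rintro ⟨A, A', hA, h1, h2⟩
    exact (h.fi A A' (fd_of_isAm hA)).elim h1 h2
  · rintro ⟨A, s, hs⟩
    -- `Γ = A * ⟨s⟩`
    have hab : A ≠ ⊥ := by
      rintro rfl
      apply h.nab
      intro x y
      have hx : x ∈ Subgroup.zpowers s := by
        have h1 : x ∈ (⊤ : Subgroup Γ) := Subgroup.mem_top x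
        rw [hs.sup, bot_sup_eq] at h1
        exact h1
      have hy : y ∈ Subgroup.zpowers s := by
        have h1 : y ∈ (⊤ : Subgroup Γ) := Subgroup.mem_top y
        rw [hs.sup, bot_sup_eq] at h1
        exact h1
      obtain ⟨m, rfl⟩ := hx
      obtain ⟨n, rfl⟩ := hy
      change s ^ m * s ^ n = s ^ n * s ^ m
      rw [← zpow_add, ← zpow_add, add_comm]
    have key : ∀ (R : Type) [CommRing R] [Algebra (ZMod 2) R]
        (a : A →* SpecialLinearGroup (Fin 2) R) (t : SpecialLinearGroup (Fin 2) R),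
        ∃ r : Γ →* SpecialLinearGroup (Fin 2) R, (∀ x : A, r x = a x) ∧ r s = t := by
      intro R _ _ a t
      obtain ⟨q, h1, h2, h3⟩ := hs.ext R (extOne A a) t (extOne_mul a) (by
        intro d hd
        obtain rfl := Subgroup.mem_bot.1 hd
        rw [MulOn.one (extOne_mul a), mul_one, inv_mul_cancel, MulOn.one (extOne_mul a), mul_one,
          mul_inv_cancel])
      refine ⟨toHom h1, fun x => ?_, h3⟩
      rw [← extOne_apply a x]
      exact h2 x x.2
    -- a matrix which is not one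
    have hs1 : s ≠ 1 := by
      rintro rfl
      obtain ⟨r, _, hr⟩ := key (ZMod 2) 1 ⟨!![1, 1; 0, 1], by simp [Matrix.det_fin_two]⟩
      rw [map_one] at hr
      have h1 := congrFun (congrFun (congrArg Subtype.val hr) 0) 1
      simp at h1
    -- `s` has infinite order, as far as it is needed: homomorphisms of `⟨s⟩` extend
    have hfd : FD Γ A (Subgroup.zpowers s) := by
      refine ⟨hs.sup.symm, fun R _ _ a c => ?_⟩
      obtain ⟨r, hr, hrs⟩ := key R a (c ⟨s, Subgroup.mem_zpowers s⟩)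
      refine ⟨r, hr, fun x => ?_⟩
      obtain ⟨x, n, rfl⟩ := x
      have h1 : (⟨(fun n : ℤ => s ^ n) n, ⟨n, rfl⟩⟩ : Subgroup.zpowers s) =
          (⟨s, Subgroup.mem_zpowers s⟩ : Subgroup.zpowers s) ^ n := Subtype.ext rfl
      rw [h1, map_zpow, ← hrs, ← map_zpow]
      rfl
    rcases h.fi _ _ hfd with h1 | h1
    · exact hab h1
    · exact hs1 (Subgroup.zpowers_eq_bot.1 h1)

end Pk

end Pool.Agent.SuAA
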